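import Pool.Agent.Helper13.PS.St

set_option autoImplicit false

/-! Module PC of project PS (MP_77ff3d_nt): sums over residues modulo powers of 3. -/

namespace Pool.Agent.Helper62.PS

open Finset Pool.Agent.Helper76.ND Pool.Agent.Helper13.PS

private theorem sum_mul (a b : ℕ) (F : ℕ → ℝ) :
    ∑ M ∈ range (a * b), F M = ∑ u ∈ range a, ∑ i ∈ range b, F (u + a * i) := by
  induction b with
  | zero => simp
  | succ b ih =>
    rw [Nat.mul_succ, Finset.sum_range_add, ih]
    have h : ∀ u, ∑ i ∈ range (b + 1), F (u + a * i) = ∑ i ∈ range b, F (u + a * i) + F (u + a * b) :=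
      fun u => Finset.sum_range_succ _ _
    simp only [h]
    rw [Finset.sum_add_distrib]
    congr 1
    exact Finset.sum_congr rfl fun x _ => by rw [add_comm]

theorem hPC : StPC := by
  refine ⟨?_, ?_⟩
  · intro m n F
    rw [pow_add]
    exact sum_mul _ _ F
  · intro n c s g hg
    have hper : ∀ x, g (x % 3 ^ n) = g x := Function.Periodic.map_mod_nat (f := g) hg
    have hN : 0 < 3 ^ n := by positivity
    have hco : Nat.gcd (3 ^ n) (2 ^ s) = 1 :=
      Nat.Coprime.pow n s (by norm_num)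
    have hmap : ∀ i ∈ range (3 ^ n), (c + 2 ^ s * i) % 3 ^ n ∈ range (3 ^ n) := fun i _ =>
      mem_range.2 (Nat.mod_lt _ hN)
    have hinj : Set.InjOn (fun i => (c + 2 ^ s * i) % 3 ^ n) (range (3 ^ n) : Set ℕ) := by
      intro i hi j hj hij
      have hi' : i < 3 ^ n := by simpa using hi
      have hj' : j < 3 ^ n := by simpa using hj
      have h1 : c + 2 ^ s * i ≡ c + 2 ^ s * j [MOD 3 ^ n] := hij
      have h2 : 2 ^ s * i ≡ 2 ^ s * j [MOD 3 ^ n] := Nat.ModEq.add_left_cancel' c h1
      have h3 : i ≡ j [MOD 3 ^ n] := Nat.ModEq.cancel_left_of_coprime hco h2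
      exact Nat.ModEq.eq_of_lt_of_lt h3 hi' hj'
    have hsurj : Set.SurjOn (fun i => (c + 2 ^ s * i) % 3 ^ n) (range (3 ^ n) : Set ℕ)
        (range (3 ^ n) : Set ℕ) :=
      Finset.surjOn_of_injOn_of_card_le _ (fun i hi => hmap i hi) hinj (le_refl _)
    exact Finset.sum_nbij (fun i => (c + 2 ^ s * i) % 3 ^ n) hmap hinj hsurj
      (fun i _ => (hper _).symm)

end Pool.Agent.Helper62.PS
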