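import Pool.Agent.Helper13.PS.St2

set_option autoImplicit false

namespace Pool.Agent.Helper62.PS

open Finset Pool.Agent.Helper76.ND Pool.Agent.Helper13.PS

open Classical in
theorem ub_fix (hCo : StCo) (s r j : ℕ) (U : Finset ℕ) (b : List Bool) (hb : b.length = r) :
    ((W s).filter (fun a => hd (a ++ b) = j ∧ ∃ M ∈ U, 3 ^ j ∣ 2 ^ (s + r) * M + cc (a ++ b))).card
      ≤ ((W s).filter (fun a => 3 ^ j ≤ cc a)).card + U.card := by
  have hsub : (W s).filter
        (fun a => hd (a ++ b) = j ∧ ∃ M ∈ U, 3 ^ j ∣ 2 ^ (s + r) * M + cc (a ++ b)) ⊆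
      (W s).filter (fun a => 3 ^ j ≤ cc a) ∪ (W s).filter (fun a => cc a < 3 ^ j ∧
        hd (a ++ b) = j ∧ ∃ M ∈ U, 3 ^ j ∣ 2 ^ (s + r) * M + cc (a ++ b)) := by
    intro a ha
    rw [mem_filter] at ha
    rw [mem_union, mem_filter, mem_filter]
    rcases le_or_gt (3 ^ j) (cc a) with h | h
    · exact Or.inl ⟨ha.1, h⟩
    · exact Or.inr ⟨ha.1, h, ha.2⟩
  refine (card_le_card hsub).trans ((card_union_le _ _).trans (Nat.add_le_add_left ?_ _))
  apply card_le_card_of_injOn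
    (fun a => if h : ∃ M ∈ U, 3 ^ j ∣ 2 ^ (s + r) * M + cc (a ++ b) then h.choose else 0)
  · intro a ha
    have ha' := (mem_filter.1 (mem_coe.1 ha)).2
    simp only [dif_pos ha'.2.2]
    exact ha'.2.2.choose_spec.1
  · intro a ha a' ha' hEq
    have h1 := (mem_filter.1 (mem_coe.1 ha))
    have h2 := (mem_filter.1 (mem_coe.1 ha'))
    simp only [dif_pos h1.2.2.2, dif_pos h2.2.2.2] at hEq
    have e1 := h1.2.2.2.choose_spec.2
    have e2 := h2.2.2.2.choose_spec.2
    rw [hEq] at e1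
    generalize h2.2.2.2.choose = M at e1 e2
    have hhd : hd a = hd a' := by
      have t1 := h1.2.2.1
      have t2 := h2.2.2.1
      rw [hd_append] at t1 t2
      omega
    have m1 : 2 ^ (s + r) * M + cc (a ++ b) ≡ 2 ^ (s + r) * M + cc (a' ++ b) [MOD 3 ^ j] :=
      ((Nat.modEq_zero_iff_dvd).2 e1).trans ((Nat.modEq_zero_iff_dvd).2 e2).symm
    have m2 := Nat.ModEq.add_left_cancel' _ m1
    rw [cc_append, cc_append, hb, hhd] at m2
    have m3 := Nat.ModEq.add_right_cancel' _ m2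
    have m4 : cc a ≡ cc a' [MOD 3 ^ j] := by
      refine Nat.ModEq.cancel_left_of_coprime ?_ m3
      exact Nat.Coprime.pow j r (by norm_num)
    have m5 := Nat.ModEq.eq_of_lt_of_lt m4 h1.2.1 h2.2.1
    have l1 := mem_W.1 h1.1
    have l2 := mem_W.1 h2.1
    exact hCo.1 a a' (l1.trans l2.symm) hhd m5

theorem hUB (hCo : StCo) : StUB := by
  classical
  intro s r j U
  rw [card_filter, sum_W_append, sum_comm]
  have h1 : ∀ b ∈ W r, (∑ a ∈ W s, if hd (a ++ b) = j ∧
      ∃ M ∈ U, 3 ^ j ∣ 2 ^ (s + r) * M + cc (a ++ b) then 1 else 0) ≤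
      ((W s).filter (fun a => 3 ^ j ≤ cc a)).card + U.card := by
    intro b hb
    rw [← card_filter]
    exact ub_fix hCo s r j U b (mem_W.1 hb)
  refine (sum_le_sum h1).trans ?_
  rw [sum_const, card_W, smul_eq_mul]

end Pool.Agent.Helper62.PS
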