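import Pool.Agent.Helper18.PS.St

set_option autoImplicit false

namespace Pool.Agent.Helper62.PS

open Finset
open Nat (totient)
open Pool.Agent.Helper18.PS

theorem hDVD : StDVD := by
  intro z m p A B r hz hm hp hdat hA hr hzr hrp
  obtain ⟨hAB, _, _, heq⟩ := hdat
  have hrA : ¬ r ∣ A := fun h => by have := hA r hr h; omega
  have hrB : r ∣ B := by
    rw [← hAB] at hrp
    rcases hr.dvd_mul.1 hrp with h | h
    · exact absurd h hrA
    · exact h
  have h2 : r ∣ 2 * totient m := by
    have h3 : r ∣ totient (sg m) * B * totient A + 2 * totient m := by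
      rw [heq]
      exact Dvd.dvd.mul_left hrB _
    have h4 : r ∣ totient (sg m) * B * totient A := by
      rw [mul_assoc]
      exact Dvd.dvd.mul_left (Dvd.dvd.mul_right hrB _) _
    exact (Nat.dvd_add_right h4).1 h3
  have h5 : r ∣ totient m := by
    rcases hr.dvd_mul.1 h2 with h | h
    · have := Nat.le_of_dvd (by norm_num) h
      omega
    · exact h
  rw [Nat.totient_eq_prod_factorization (by omega : m ≠ 0)] at h5
  obtain ⟨q, hq, hd⟩ := (Prime.dvd_finsetProd_iff hr.prime _).1 h5
  have hqm := Nat.mem_primeFactors.1 (by simpa using hq)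
  simp only at hd
  rcases hr.dvd_mul.1 hd with h | h
  · right
    have h6 : r ∣ q := hr.dvd_of_dvd_pow h
    have h7 : r = q := (Nat.prime_dvd_prime_iff_eq hr hqm.1).1 h6
    subst h7
    have h8 : m.factorization r - 1 ≠ 0 := by
      intro h0
      rw [h0, pow_zero] at h
      exact hr.one_lt.ne' (Nat.dvd_one.1 h)
    exact (hr.pow_dvd_iff_le_factorization (by omega)).2 (by omega)
  · left
    exact ⟨q, hqm.1, hqm.2.1, h⟩

end Pool.Agent.Helper62.PS
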